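import Mathlib
import Pool.Agent.H242.GX.Stm

/-!
# Project GX (helper242), task COMP (helper166): composition with a map close to the identity
-/

set_option autoImplicit false

namespace Pool.Agent.H166.GX

open Pool.Agent.H242.GX
open scoped ContDiff

theorem nrm_zero {F : Type} [NormedAddCommGroup F] [NormedSpace ℝ F] (f : ℝ × ℝ → F)
    (x : ℝ × ℝ) : nrm 0 f x = ‖f x‖ := by
  unfold nrm
  simp

theorem nrm_succ {F : Type} [NormedAddCommGroup F] [NormedSpace ℝ F] (j : ℕ) (f : ℝ × ℝ → F)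
    (x : ℝ × ℝ) : nrm (j + 1) f x = ‖f x‖ + nrm j (fderiv ℝ f) x := by
  unfold nrm
  rw [Finset.sum_range_succ']
  rw [norm_iteratedFDeriv_zero, add_comm]
  congr 1
  refine Finset.sum_congr rfl (fun i _ => ?_)
  rw [norm_iteratedFDeriv_fderiv]

theorem nrm_nonneg {F : Type} [NormedAddCommGroup F] [NormedSpace ℝ F] (j : ℕ) (f : ℝ × ℝ → F)
    (x : ℝ × ℝ) : 0 ≤ nrm j f x :=
  Finset.sum_nonneg (fun _ _ => norm_nonneg _)

theorem le_nrm {F : Type} [NormedAddCommGroup F] [NormedSpace ℝ F] {i j : ℕ} (h : i ≤ j)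
    (f : ℝ × ℝ → F) (x : ℝ × ℝ) : ‖iteratedFDeriv ℝ i f x‖ ≤ nrm j f x :=
  Finset.single_le_sum (f := fun i => ‖iteratedFDeriv ℝ i f x‖) (fun _ _ => norm_nonneg _)
    (Finset.mem_range.2 (by omega))

theorem nrm_add {F : Type} [NormedAddCommGroup F] [NormedSpace ℝ F] (j : ℕ) {f g : ℝ × ℝ → F}
    (hf : ContDiff ℝ ∞ f) (hg : ContDiff ℝ ∞ g) (x : ℝ × ℝ) :
    nrm j (fun z => f z + g z) x ≤ nrm j f x + nrm j g x := by
  unfold nrm
  rw [← Finset.sum_add_distrib]
  refine Finset.sum_le_sum (fun i _ => ?_)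
  have hi : ((i : ℕ) : WithTop ℕ∞) ≤ (∞ : WithTop ℕ∞) := by
    exact_mod_cast le_top
  have h := iteratedFDeriv_add_apply (𝕜 := ℝ) (i := i) (x := x) (f := f) (g := g)
    ((hf.of_le hi).contDiffAt) ((hg.of_le hi).contDiffAt)
  have h2 : iteratedFDeriv ℝ i (fun z => f z + g z) x = iteratedFDeriv ℝ i (f + g) x := rfl
  rw [h2, h]
  exact norm_add_le _ _

theorem comp_gen {W : ℝ × ℝ → ℝ × ℝ} (hW : Small W) (j : ℕ) : ∃ C : ℝ, 0 ≤ C ∧
    ∀ (F : Type) [NormedAddCommGroup F] [NormedSpace ℝ F] (f : ℝ × ℝ → F), ContDiff ℝ ∞ f →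
    ∀ x : ℝ × ℝ, x.2 ≤ 0 →
      nrm j (fun z => f (z + W z)) x ≤ (1 + C * Real.exp x.2) * nrm j f (x + W x) := by
  obtain ⟨hWs, hWb⟩ := hW
  choose c hc using hWb
  induction j with
  | zero =>
    refine ⟨0, le_rfl, ?_⟩
    intro F _ _ f hf x hx
    rw [nrm_zero, nrm_zero, zero_mul, add_zero, one_mul]
  | succ j ih =>
    obtain ⟨C1, hC1, h1⟩ := ih
    obtain ⟨CA, hCA⟩ : ∃ CA : ℝ, CA = ∑ k ∈ Finset.range (j + 2), |c k| := ⟨_, rfl⟩
    have hCA0 : 0 ≤ CA := by
      rw [hCA]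
      exact Finset.sum_nonneg (fun _ _ => abs_nonneg _)
    obtain ⟨C2, hC2⟩ : ∃ C2 : ℝ, C2 = (j + 1 : ℝ) * ((j + 1 : ℝ) * (2 ^ j * CA)) := ⟨_, rfl⟩
    have hC20 : 0 ≤ C2 := by
      rw [hC2]
      positivity
    refine ⟨C1 + C2 + C1 * C2, by positivity, ?_⟩
    intro F _ _ f hf x hx
    have hS : ContDiff ℝ ∞ (fun z : ℝ × ℝ => z + W z) := contDiff_id.add hWs
    have hDf : ContDiff ℝ ∞ (fderiv ℝ f) := hf.fderiv_right (by simp)
    have hDW : ContDiff ℝ ∞ (fderiv ℝ W) := hWs.fderiv_right (by simp)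
    have hg : ContDiff ℝ ∞ (fun z : ℝ × ℝ => fderiv ℝ f (z + W z)) := hDf.comp hS
    have hone : (∞ : WithTop ℕ∞) ≠ 0 := by simp
    have hfd : Differentiable ℝ f := hf.differentiable hone
    have hWd : Differentiable ℝ W := hWs.differentiable hone
    have hder : fderiv ℝ (fun z => f (z + W z)) = fun z => fderiv ℝ f (z + W z) +
        ContinuousLinearMap.compL ℝ (ℝ × ℝ) (ℝ × ℝ) F (fderiv ℝ f (z + W z)) (fderiv ℝ W z) := by
      funext z
      have hSz : HasFDerivAt (fun z : ℝ × ℝ => z + W z)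
          (ContinuousLinearMap.id ℝ (ℝ × ℝ) + fderiv ℝ W z) z :=
        (hasFDerivAt_id z).add (hWd z).hasFDerivAt
      have h2 := ((hfd (z + W z)).hasFDerivAt).comp z hSz
      have h3 : fderiv ℝ (fun z => f (z + W z)) z =
          (fderiv ℝ f (z + W z)).comp (ContinuousLinearMap.id ℝ (ℝ × ℝ) + fderiv ℝ W z) :=
        h2.fderiv
      rw [h3, ContinuousLinearMap.comp_add, ContinuousLinearMap.comp_id,
        ContinuousLinearMap.compL_apply]
    have hB : ContDiff ℝ ∞ (fun z => ContinuousLinearMap.compL ℝ (ℝ × ℝ) (ℝ × ℝ) F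
        (fderiv ℝ f (z + W z)) (fderiv ℝ W z)) := by
      exact ((ContinuousLinearMap.compL ℝ (ℝ × ℝ) (ℝ × ℝ) F).contDiff.comp hg).clm_apply hDW
    have he0 : 0 < Real.exp x.2 := Real.exp_pos _
    have he1 : Real.exp x.2 ≤ 1 := Real.exp_le_one_iff.2 hx
    have hA : ∀ m, m ≤ j → ‖iteratedFDeriv ℝ m (fderiv ℝ W) x‖ ≤ CA * Real.exp x.2 := by
      intro m hm
      rw [norm_iteratedFDeriv_fderiv]
      refine (hc (m + 1) x hx).trans ?_
      apply mul_le_mul_of_nonneg_right _ he0.le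
      refine (le_abs_self _).trans ?_
      rw [hCA]
      exact Finset.single_le_sum (f := fun k => |c k|) (fun _ _ => abs_nonneg _)
        (Finset.mem_range.2 (by omega))
    obtain ⟨G, hG⟩ : ∃ G, G = nrm j (fun z => fderiv ℝ f (z + W z)) x := ⟨_, rfl⟩
    have hG0 : 0 ≤ G := by
      rw [hG]
      exact nrm_nonneg _ _ _
    have hbil : nrm j (fun z => ContinuousLinearMap.compL ℝ (ℝ × ℝ) (ℝ × ℝ) F
        (fderiv ℝ f (z + W z)) (fderiv ℝ W z)) x ≤ C2 * Real.exp x.2 * G := by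
      have hterm : ∀ n ∈ Finset.range (j + 1),
          ‖iteratedFDeriv ℝ n (fun z => ContinuousLinearMap.compL ℝ (ℝ × ℝ) (ℝ × ℝ) F
            (fderiv ℝ f (z + W z)) (fderiv ℝ W z)) x‖ ≤
          (j + 1 : ℝ) * (2 ^ j * CA * Real.exp x.2 * G) := by
        intro n hn
        rw [Finset.mem_range] at hn
        have hnN : ((n : ℕ) : WithTop ℕ∞) ≤ (∞ : WithTop ℕ∞) := by
          exact_mod_cast le_top
        have h4 := ContinuousLinearMap.norm_iteratedFDeriv_le_of_bilinear_of_le_one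
          (ContinuousLinearMap.compL ℝ (ℝ × ℝ) (ℝ × ℝ) F) hg hDW x hnN
          (ContinuousLinearMap.norm_compL_le ℝ (ℝ × ℝ) (ℝ × ℝ) F)
        refine h4.trans ?_
        have h5 : ∀ i ∈ Finset.range (n + 1), ((n.choose i : ℕ) : ℝ) *
            ‖iteratedFDeriv ℝ i (fun z => fderiv ℝ f (z + W z)) x‖ *
            ‖iteratedFDeriv ℝ (n - i) (fderiv ℝ W) x‖ ≤ 2 ^ j * CA * Real.exp x.2 * G := by
          intro i hi
          rw [Finset.mem_range] at hi
          have e1 : ((n.choose i : ℕ) : ℝ) ≤ 2 ^ j := by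
            have e2 : n.choose i ≤ 2 ^ n := Nat.choose_le_two_pow n i
            have e3 : (2 : ℕ) ^ n ≤ 2 ^ j := Nat.pow_le_pow_right (by norm_num) (by omega)
            exact_mod_cast e2.trans e3
          have e4 : ‖iteratedFDeriv ℝ i (fun z => fderiv ℝ f (z + W z)) x‖ ≤ G := by
            rw [hG]
            exact le_nrm (by omega) _ _
          have e5 := hA (n - i) (by omega)
          calc ((n.choose i : ℕ) : ℝ) * ‖iteratedFDeriv ℝ i (fun z => fderiv ℝ f (z + W z)) x‖ *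
              ‖iteratedFDeriv ℝ (n - i) (fderiv ℝ W) x‖ ≤ (2 ^ j * G) * (CA * Real.exp x.2) := by
                apply mul_le_mul _ e5 (norm_nonneg _) (by positivity)
                exact mul_le_mul e1 e4 (norm_nonneg _) (by positivity)
            _ = 2 ^ j * CA * Real.exp x.2 * G := by ring
        refine (Finset.sum_le_sum h5).trans ?_
        rw [Finset.sum_const, Finset.card_range, nsmul_eq_mul]
        apply mul_le_mul_of_nonneg_right _ (by positivity)
        have : ((n + 1 : ℕ) : ℝ) ≤ ((j + 1 : ℕ) : ℝ) := by exact_mod_cast hn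
        push_cast at this ⊢
        exact this
      unfold nrm
      refine (Finset.sum_le_sum hterm).trans ?_
      rw [Finset.sum_const, Finset.card_range, nsmul_eq_mul, hC2]
      push_cast
      apply le_of_eq
      ring
    rw [nrm_succ, nrm_succ, hder]
    have h6 := (nrm_add j hg hB x).trans (add_le_add_right hbil _)
    have h7 := h1 (ℝ × ℝ →L[ℝ] F) (fderiv ℝ f) hDf x hx
    rw [← hG] at h6 h7
    obtain ⟨M, hM⟩ : ∃ M, M = nrm j (fderiv ℝ f) (x + W x) := ⟨_, rfl⟩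
    rw [← hM] at h7 ⊢
    have hM0 : 0 ≤ M := by
      rw [hM]
      exact nrm_nonneg _ _ _
    obtain ⟨E, hE⟩ : ∃ E, E = Real.exp x.2 := ⟨_, rfl⟩
    rw [← hE] at he0 he1 h6 h7 ⊢
    have hf0 := norm_nonneg (f (x + W x))
    obtain ⟨v, hv⟩ : ∃ v, v = ‖f (x + W x)‖ := ⟨_, rfl⟩
    rw [← hv] at hf0 ⊢
    have h8 : G + C2 * E * G ≤ (1 + C2 * E) * ((1 + C1 * E) * M) := by
      have : G + C2 * E * G = (1 + C2 * E) * G := by ring
      rw [this]
      exact mul_le_mul_of_nonneg_left h7 (by positivity)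
    have h9 : (1 + C2 * E) * ((1 + C1 * E) * M) ≤ (1 + (C1 + C2 + C1 * C2) * E) * M := by
      have h10 : (1 + C2 * E) * (1 + C1 * E) ≤ 1 + (C1 + C2 + C1 * C2) * E := by
        have h11 : E * E ≤ E := by nlinarith
        have h12 : C1 * C2 * (E * E) ≤ C1 * C2 * E := mul_le_mul_of_nonneg_left h11 (by positivity)
        nlinarith
      calc (1 + C2 * E) * ((1 + C1 * E) * M) = ((1 + C2 * E) * (1 + C1 * E)) * M := by ring
        _ ≤ _ := mul_le_mul_of_nonneg_right h10 hM0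
    have h13 : v ≤ (1 + (C1 + C2 + C1 * C2) * E) * v := by
      have : 0 ≤ (C1 + C2 + C1 * C2) * E * v := by positivity
      nlinarith
    have h14 : (1 + (C1 + C2 + C1 * C2) * E) * (v + M) =
        (1 + (C1 + C2 + C1 * C2) * E) * v + (1 + (C1 + C2 + C1 * C2) * E) * M := by ring
    rw [h14]
    linarith

theorem gx_COMP : S_COMP := by
  intro W hW j
  obtain ⟨C, hC, h⟩ := comp_gen hW j
  exact ⟨C, hC, fun f hf x hx => h ℝ f hf x hx⟩

end Pool.Agent.H166.GX
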